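import Mathlib

set_option autoImplicit false

namespace Pool.Agent.H.MP_621202_pr

open MeasureTheory Filter Topology ENNReal

abbrev A := Bool × Bool × Bool
abbrev I := Fin 1 → ℤ
abbrev X := I → A

def e (k : ℤ) : I := fun _ => k

lemma e_add (a b : ℤ) : e a + e b = e (a + b) := rfl

lemma e_eta (i : I) : e (i 0) = i := by
  ext j
  rw [Subsingleton.elim j 0]
  rfl

lemma e_inj {a b : ℤ} (h : e a = e b) : a = b := congrFun h 0

noncomputable def coin : Measure Bool := (PMF.uniformOfFintype Bool).toMeasure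

instance : IsProbabilityMeasure coin := by unfold coin; infer_instance

noncomputable def P : Measure (I → Bool) := Measure.infinitePi (fun _ => coin)

instance : IsProbabilityMeasure P := by unfold P; infer_instance

def loc (l c r : A) : Bool × Bool :=
  (l.1 && !c.2.1 && !r.2.1, c.1 || (c.2.1 && !c.2.2) || (r.2.1 && r.2.2))

def O (x : X) (i : I) : Bool × Bool := loc (x (i + e (-1))) (x (i + e 0)) (x (i + e 1))

def Z (x : X) (ω : I → Bool) : X := fun i => ((O x i).1, (O x i).2, ω i)

lemma mO (i : I) : Measurable fun x : X => O x i := by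
  have h : Measurable (fun x : X => (x (i + e (-1)), x (i + e 0), x (i + e 1))) :=
    (measurable_pi_apply _).prodMk ((measurable_pi_apply _).prodMk (measurable_pi_apply _))
  exact (measurable_of_countable (fun p : A × A × A => loc p.1 p.2.1 p.2.2)).comp h

lemma mZ : Measurable (fun p : X × (I → Bool) => Z p.1 p.2) := by
  apply measurable_pi_lambda
  intro i
  exact (((mO i).comp measurable_fst).fst).prodMk ((((mO i).comp measurable_fst).snd).prodMk
    ((measurable_pi_apply i).comp measurable_snd))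

lemma mZ' (x : X) : Measurable (Z x) := mZ.comp measurable_prodMk_left

noncomputable def K (x : X) : Measure X := P.map (Z x)

instance (x : X) : IsProbabilityMeasure (K x) :=
  Measure.isProbabilityMeasure_map (mZ' x).aemeasurable

lemma mK : Measurable K := by
  apply Measure.measurable_of_measurable_coe
  intro s hs
  simp only [K, Measure.map_apply (mZ' _) hs]
  exact measurable_measure_prodMk_left (mZ hs)

noncomputable def T (g : X → ℝ≥0∞) (x : X) : ℝ≥0∞ := ∫⁻ ω, g (Z x ω) ∂P

lemma mT {g : X → ℝ≥0∞} (hg : Measurable g) (n : ℕ) : Measurable (T^[n] g) := by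
  induction n with
  | zero => exact hg
  | succ n ih =>
    rw [Function.iterate_succ_apply']
    exact (ih.comp mZ).lintegral_prod_right'

lemma T_succ (g : X → ℝ≥0∞) (n : ℕ) (x : X) : T^[n + 1] g x = ∫⁻ ω, T^[n] g (Z x ω) ∂P := by
  rw [Function.iterate_succ_apply']; rfl

lemma T_mono {g h : X → ℝ≥0∞} (hg : ∀ x, g x ≤ h x) (n : ℕ) : ∀ x, T^[n] g x ≤ T^[n] h x := by
  induction n with
  | zero => exact hg
  | succ n ih =>
    intro x
    rw [T_succ, T_succ]
    exact lintegral_mono fun ω => ih _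

lemma T_add {g : X → ℝ≥0∞} (hg : Measurable g) (h : X → ℝ≥0∞) (n : ℕ) :
    ∀ x, T^[n] (fun y => g y + h y) x = T^[n] g x + T^[n] h x := by
  induction n with
  | zero => exact fun _ => rfl
  | succ n ih =>
    intro x
    simp only [T_succ, ih]
    exact lintegral_add_left ((mT hg n).comp (mZ' x)) _

lemma T_const (c : ℝ≥0∞) (n : ℕ) : ∀ x, T^[n] (fun _ => c) x = c := by
  induction n with
  | zero => exact fun _ => rfl
  | succ n ih =>
    intro x
    simp [T_succ, ih]

lemma T_mul {g : X → ℝ≥0∞} (hg : Measurable g) (c : ℝ≥0∞) (n : ℕ) :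
    ∀ x, T^[n] (fun y => c * g y) x = c * T^[n] g x := by
  induction n with
  | zero => exact fun _ => rfl
  | succ n ih =>
    intro x
    simp only [T_succ, ih]
    exact lintegral_const_mul _ ((mT hg n).comp (mZ' x))

lemma T_sum {ι : Type} (s : Finset ι) {g : ι → X → ℝ≥0∞} (hg : ∀ i, Measurable (g i)) (n : ℕ)
    (x : X) : T^[n] (fun y => ∑ i ∈ s, g i y) x = ∑ i ∈ s, T^[n] (g i) x := by
  classical
  induction s using Finset.induction_on with
  | empty => simpa using T_const 0 n x
  | insert a s ha ih =>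
    simp only [Finset.sum_insert ha]
    rw [T_add (hg a), ih]

lemma lint_iter {g : X → ℝ≥0∞} (hg : Measurable g) (n : ℕ) (μ : Measure X) :
    ∫⁻ x, g x ∂((fun ν : Measure X => ν.bind K)^[n] μ) = ∫⁻ x, T^[n] g x ∂μ := by
  induction n generalizing μ with
  | zero => rfl
  | succ n ih =>
    rw [Function.iterate_succ_apply, ih, Measure.lintegral_bind mK.aemeasurable
      (mT hg n).aemeasurable]
    congr 1
    ext x
    rw [T_succ, K, lintegral_map (mT hg n) (mZ' x)]

lemma lint_coin (φ : Bool → ℝ≥0∞) : ∫⁻ b, φ b ∂coin = 2⁻¹ * (φ false + φ true) := by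
  rw [lintegral_fintype]
  simp [coin, PMF.toMeasure_apply_singleton _ _ (measurableSet_singleton _)]
  ring

lemma lint1 (i : I) (φ : Bool → ℝ≥0∞) : ∫⁻ ω, φ (ω i) ∂P = 2⁻¹ * (φ false + φ true) := by
  rw [← lint_coin]
  exact (measurePreserving_eval_infinitePi (fun _ : I => coin) i).lintegral_comp
    (measurable_of_countable φ)

lemma lint2 {i j : I} (h : i ≠ j) (φ : Bool → Bool → ℝ≥0∞) : ∫⁻ ω, φ (ω i) (ω j) ∂P =
    2⁻¹ * (2⁻¹ * (φ false false + φ false true) + 2⁻¹ * (φ true false + φ true true)) := by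
  have hi : ProbabilityTheory.IndepFun (fun ω : I → Bool => ω i) (fun ω => ω j) P :=
    (ProbabilityTheory.iIndepFun_infinitePi (P := fun _ : I => coin) (X := fun _ => id)
      (fun _ => measurable_id)).indepFun h
  rw [ProbabilityTheory.indepFun_iff_map_prod_eq_prod_map_map (measurable_pi_apply i).aemeasurable
    (measurable_pi_apply j).aemeasurable] at hi
  have h1 : ∀ k : I, P.map (fun ω : I → Bool => ω k) = coin :=
    fun k => (measurePreserving_eval_infinitePi (fun _ : I => coin) k).map_eq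
  rw [h1, h1] at hi
  have := lintegral_map (μ := P) (f := fun p : Bool × Bool => φ p.1 p.2)
    (measurable_of_countable _) ((measurable_pi_apply i).prodMk (measurable_pi_apply j))
  rw [← this, hi, lintegral_prod _ (measurable_of_countable _).aemeasurable, lint_coin]
  simp only [lint_coin]

def s (x : X) (k : ℤ) : Bool := (x (e k)).1
def w (x : X) (k : ℤ) : Bool := (x (e k)).2.1
def a (x : X) (k : ℤ) : Bool := (x (e k)).2.2

lemma s_Z (x : X) (ω : I → Bool) (k : ℤ) :
    s (Z x ω) k = (s x (k - 1) && !w x k && !w x (k + 1)) := by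
  simp [s, w, Z, O, loc, e_add, sub_eq_add_neg]

lemma w_Z (x : X) (ω : I → Bool) (k : ℤ) :
    w (Z x ω) k = (s x k || (w x k && !a x k) || (w x (k + 1) && a x (k + 1))) := by
  simp [s, w, a, Z, O, loc, e_add]

lemma a_Z (x : X) (ω : I → Bool) (k : ℤ) : a (Z x ω) k = ω (e k) := rfl

noncomputable def σ (k : ℤ) (x : X) : ℝ≥0∞ := if s x k then 1 else 0

lemma mσ (k : ℤ) : Measurable (σ k) :=
  (measurable_of_countable (fun p : A => if p.1 then (1 : ℝ≥0∞) else 0)).comp
    (measurable_pi_apply (e k))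

lemma dead (k : ℤ) (t : ℕ) : ∀ x, s x (k - t) = false → T^[t] (σ k) x = 0 := by
  induction t with
  | zero => intro x h; simpa [σ] using h
  | succ t ih =>
    intro x h
    rw [T_succ]
    have : ∀ ω, T^[t] (σ k) (Z x ω) = 0 := by
      intro ω
      apply ih
      rw [s_Z, show k - t - 1 = k - (t + 1 : ℕ) by push_cast; ring, h]
      simp
    simp [this]

noncomputable def B (m : ℤ) (t : ℕ) : ℝ≥0∞ := ENNReal.ofReal (2 ^ m * (3 / 4) ^ t)

def bz (b : Bool) : ℤ := if b then 1 else 0

lemma half_ofReal (x : ℝ) : 2⁻¹ * ENNReal.ofReal x = ENNReal.ofReal (x / 2) := by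
  rw [ENNReal.ofReal_div_of_pos (by norm_num), div_eq_mul_inv, mul_comm]
  simp

lemma B_avg (m : ℤ) (t : ℕ) : 2⁻¹ * (B (m - bz false) t + B (m - bz true) t) = B m (t + 1) := by
  rw [B, B, B, ← ENNReal.ofReal_add (by positivity) (by positivity), half_ofReal]
  congr 1
  simp only [bz, Bool.false_eq_true, if_false, if_true, sub_zero]
  rw [zpow_sub_one₀ (by norm_num), pow_succ]
  ring

lemma kill (k : ℤ) (t : ℕ) : ∀ x p, w x p = true → k - t < p →
    T^[t] (σ k) x ≤ B (p - k - bz (a x p)) t := by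
  induction t with
  | zero =>
    intro x p _ hp
    have h1 : (0 : ℤ) ≤ p - k - bz (a x p) := by unfold bz; split_ifs <;> omega
    have h2 : (1 : ℝ) ≤ 2 ^ (p - k - bz (a x p)) := one_le_zpow₀ (by norm_num) h1
    refine le_trans ?_ (ENNReal.one_le_ofReal.mpr (by simpa using h2))
    simp only [Function.iterate_zero, id, σ]
    split_ifs <;> simp
  | succ t ih =>
    intro x p hw hp
    rw [T_succ]
    by_cases h : k - t < p - bz (a x p)
    · have h1 : ∀ ω, w (Z x ω) (p - bz (a x p)) = true := by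
        intro ω
        rw [w_Z]
        cases h : a x p <;> simp [bz, h, hw]
      refine (lintegral_mono fun ω => ih _ _ (h1 ω) h).trans ?_
      simp only [a_Z]
      rw [lint1 _ (fun b => B (p - bz (a x p) - k - bz b) t), B_avg]
      apply le_of_eq
      congr 1
      ring
    · have : ∀ ω, T^[t] (σ k) (Z x ω) = 0 := by
        intro ω
        apply dead
        rw [s_Z]
        have : p = k - t ∨ p = k - t + 1 := by
          unfold bz at h
          push_cast at hp
          split_ifs at h <;> omega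
        rcases this with h | h <;> simp [← h, hw]
      simp [this]

lemma σ_lim (k : ℤ) (x : X) : Tendsto (fun t => T^[t] (σ k) x) atTop (𝓝 0) := by
  by_cases h : ∃ p, s x p = true
  · obtain ⟨p, hp⟩ := h
    rw [← tendsto_add_atTop_iff_nat 1]
    have h1 : Tendsto (fun t => B (p - k) (t + 1)) atTop (𝓝 0) := by
      have := ((tendsto_pow_atTop_nhds_zero_of_lt_one (r := (3 / 4 : ℝ)) (by norm_num)
        (by norm_num)).comp (tendsto_add_atTop_nat 1)).const_mul ((2 : ℝ) ^ (p - k))
      simpa [B] using ENNReal.tendsto_ofReal this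
    apply tendsto_of_tendsto_of_tendsto_of_le_of_le' tendsto_const_nhds h1
      (Eventually.of_forall fun _ => zero_le)
    filter_upwards [eventually_gt_atTop (k - p).toNat] with t ht
    rw [T_succ]
    have h2 : ∀ ω, w (Z x ω) p = true := by
      intro ω
      rw [w_Z, hp]
      simp
    refine (lintegral_mono fun ω => kill k t _ p (h2 ω) (by omega)).trans ?_
    simp only [a_Z]
    rw [lint1 _ (fun b => B (p - k - bz b) t), B_avg]
  · have : ∀ t, T^[t] (σ k) x = 0 := fun t => dead k t x (by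
      by_contra h'
      exact h ⟨_, by simpa using h'⟩)
    simp [this]

noncomputable def γ (l r : ℤ) (x : X) : ℝ≥0∞ :=
  if ∃ p ∈ Finset.Ico l r, w x p = true then 1 else 0

lemma mγ (l r : ℤ) : Measurable (γ l r) := by
  apply Measurable.ite _ measurable_const measurable_const
  have : {x : X | ∃ p ∈ Finset.Ico l r, w x p = true} =
      ⋃ p ∈ Finset.Ico l r, (fun x : X => x (e p)) ⁻¹' {c | c.2.1 = true} := by
    ext x
    simp [w]
  rw [this]
  exact Finset.measurableSet_biUnion _ fun p _ => measurable_pi_apply _ MeasurableSet.of_discrete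

lemma γ_le (l r : ℤ) (x : X) : γ l r x ≤ 1 := by
  unfold γ; split_ifs <;> simp

noncomputable def G (l r : ℤ) (x : X) : ℝ≥0∞ := γ l r (Z x fun _ => false)

lemma mG (l r : ℤ) : Measurable (G l r) := (mγ l r).comp (mZ.comp measurable_prodMk_right)

lemma γ_Z (l r : ℤ) (x : X) (ω : I → Bool) : γ l r (Z x ω) = G l r x := by
  simp only [G, γ, w_Z]

lemma G_le (l r : ℤ) (x : X) :
    G l r x ≤ ∑ p ∈ Finset.Ico l r, σ p x + γ (l + bz (a x l)) (r + bz (a x r)) x := by
  rw [G, γ]
  split_ifs with h
  · obtain ⟨p, hp, h⟩ := h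
    rw [w_Z] at h
    simp only [Bool.or_eq_true, Bool.and_eq_true, Bool.not_eq_eq_eq_not, Bool.not_true] at h
    rw [Finset.mem_Ico] at hp
    rcases h with (h | h) | h
    · refine le_trans ?_ le_self_add
      refine le_trans ?_ (Finset.single_le_sum (f := fun p => σ p x) (fun _ _ => zero_le)
        (Finset.mem_Ico.mpr hp))
      simp [σ, h]
    · refine le_trans (le_of_eq ?_) le_add_self
      rw [γ, if_pos]
      refine ⟨p, ?_, h.1⟩
      rw [Finset.mem_Ico]
      by_cases e : p = l
      · subst e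
        simp only [bz, h.2, Bool.false_eq_true, if_false]
        split_ifs <;> omega
      · unfold bz
        split_ifs <;> omega
    · refine le_trans (le_of_eq ?_) le_add_self
      rw [γ, if_pos]
      refine ⟨p + 1, ?_, h.1⟩
      rw [Finset.mem_Ico]
      by_cases e : p + 1 = r
      · subst e
        simp only [bz, h.2, if_true]
        split_ifs <;> omega
      · unfold bz
        split_ifs <;> omega
  · exact zero_le

lemma TG_le {l r : ℤ} (h : l < r) (x : X) :
    T (G l r) x ≤ ∑ p ∈ Finset.Ico l r, T (σ p) x +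
      2⁻¹ * (2⁻¹ * (G l r x + G l (r + 1) x) + 2⁻¹ * (G (l + 1) r x + G (l + 1) (r + 1) x)) := by
  refine (lintegral_mono fun ω => G_le l r (Z x ω)).trans (le_of_eq ?_)
  have m : ∀ p, Measurable fun ω => σ p (Z x ω) := fun p => (mσ p).comp (mZ' x)
  rw [lintegral_add_left (Finset.measurable_sum _ fun p _ => m p),
    lintegral_finsetSum _ fun p _ => m p]
  simp only [γ_Z, a_Z]
  rw [lint2 (fun h' => h.ne (e_inj h')) (fun b c => G (l + bz b) (r + bz c) x)]
  simp [bz, T]

noncomputable def v (M : ℕ) (t : ℕ) (m : ℤ) : ℝ :=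
  m / M + (1 - 1 / (2 * (M : ℝ) ^ 2)) ^ t * (m * (2 * M - m))

lemma walk (M : ℕ) (hM : 1 ≤ M) (t : ℕ) : ∀ (l r : ℤ) (y : X), l ≤ r → r - l ≤ M →
    (∀ p, l - t ≤ p → p ≤ r + t → s y p = false) →
    T^[t] (G l r) y ≤ ENNReal.ofReal (v M t (r - l)) := by
  have hM' : (1 : ℝ) ≤ M := by exact_mod_cast hM
  have θ0 : 0 ≤ 1 - 1 / (2 * (M : ℝ) ^ 2) := by
    rw [sub_nonneg, div_le_one (by positivity)]
    nlinarith
  have v0 : ∀ t (m : ℤ), 0 ≤ m → m ≤ M → 0 ≤ v M t m := by
    intro t m h0 h1
    have a0 : (0 : ℝ) ≤ m := by exact_mod_cast h0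
    have a1 : (m : ℝ) ≤ M := by exact_mod_cast h1
    have : (0 : ℝ) ≤ 2 * M - m := by linarith
    unfold v
    positivity
  have one : ∀ t l r y, T^[t] (G l r) y ≤ 1 := fun t l r y =>
    (T_mono (fun x => γ_le l r _) t y).trans (T_const 1 t y).le
  have zero : ∀ t l y, T^[t] (G l l) y = 0 := by
    intro t l y
    have : G l l = fun _ => 0 := by
      ext x
      simp [G, γ]
    rw [this, T_const]
  induction t with
  | zero =>
    intro l r y h0 h1 _
    rcases h0.eq_or_lt with rfl | h
    · rw [zero]; exact zero_le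
    · refine (one _ _ _ _).trans (ENNReal.one_le_ofReal.mpr ?_)
      have a0 : (1 : ℝ) ≤ (r - l : ℤ) := by exact_mod_cast (by omega : 1 ≤ r - l)
      have a1 : ((r - l : ℤ) : ℝ) ≤ M := by exact_mod_cast h1
      have : (0 : ℝ) ≤ (r - l : ℤ) / M := by positivity
      unfold v
      nlinarith
  | succ t ih =>
    intro l r y h0 h1 hs
    rcases h0.eq_or_lt with rfl | h
    · rw [zero]; exact zero_le
    rcases h1.eq_or_lt with h2 | h2
    · refine (one _ _ _ _).trans (ENNReal.one_le_ofReal.mpr ?_)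
      rw [h2, v]
      have : (0 : ℝ) ≤ 2 * M - M := by linarith
      have : (0 : ℝ) ≤ (1 - 1 / (2 * (M : ℝ) ^ 2)) ^ (t + 1) * (M * (2 * M - M)) := by positivity
      push_cast
      rw [div_self (by linarith)]
      linarith
    rw [Function.iterate_succ_apply]
    refine (T_mono (TG_le h) t y).trans ?_
    have m1 := mG l r
    have m2 := mG l (r + 1)
    have m3 := mG (l + 1) r
    have m4 := mG (l + 1) (r + 1)
    have m0 : ∀ p, Measurable (T (σ p)) := fun p => mT (mσ p) 1
    rw [T_add (Finset.measurable_sum _ fun p _ => m0 p), T_sum _ m0,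
      T_mul (by fun_prop), T_add (by fun_prop), T_mul (by fun_prop), T_mul (by fun_prop),
      T_add m1, T_add m3, Finset.sum_eq_zero, zero_add]
    · have b1 := ih l r y h0 h1 fun p a b => hs p (by omega) (by omega)
      have b2 := ih l (r + 1) y (by omega) (by omega) fun p a b => hs p (by omega) (by omega)
      have b3 := ih (l + 1) r y (by omega) (by omega) fun p a b => hs p (by omega) (by omega)
      have b4 := ih (l + 1) (r + 1) y (by omega) (by omega) fun p a b => hs p (by omega) (by omega)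
      have c1 := v0 t (r - l) (by omega) (by omega)
      have c2 := v0 t (r + 1 - l) (by omega) (by omega)
      have c3 := v0 t (r - (l + 1)) (by omega) (by omega)
      have c4 := v0 t (r + 1 - (l + 1)) (by omega) (by omega)
      refine le_trans (by gcongr) (?_ : 2⁻¹ * (2⁻¹ * (ENNReal.ofReal (v M t (r - l)) +
        ENNReal.ofReal (v M t (r + 1 - l))) + 2⁻¹ * (ENNReal.ofReal (v M t (r - (l + 1))) +
        ENNReal.ofReal (v M t (r + 1 - (l + 1))))) ≤ _)
      rw [← ENNReal.ofReal_add c1 c2, ← ENNReal.ofReal_add c3 c4, half_ofReal, half_ofReal,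
        ← ENNReal.ofReal_add (by positivity) (by positivity), half_ofReal]
      apply ENNReal.ofReal_le_ofReal
      unfold v
      push_cast
      obtain ⟨m, hm⟩ : ∃ m : ℝ, m = r - l := ⟨_, rfl⟩
      have e1 : (r : ℝ) + 1 - l = m + 1 := by rw [hm]; ring
      have e2 : (r : ℝ) - (l + 1) = m - 1 := by rw [hm]; ring
      have e3 : (r : ℝ) + 1 - (l + 1) = m := by rw [hm]; ring
      rw [e1, e2, e3, ← hm, pow_succ _ t]
      have f1 : 1 / (2 * (M : ℝ) ^ 2) * (m * (2 * M - m)) ≤ 1 / 2 := by
        rw [div_mul_eq_mul_div, div_le_iff₀ (by positivity)]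
        nlinarith [sq_nonneg (m - M)]
      have f2 := mul_le_mul_of_nonneg_left f1 (pow_nonneg θ0 t)
      have f3 : (m + 1) / M + (m - 1) / M = 2 * (m / M) := by ring
      linarith
    · intro p hp
      rw [Finset.mem_Ico] at hp
      exact dead p (t + 1) y (hs _ (by omega) (by omega))

lemma G_lim (k : ℤ) (x : X) : Tendsto (fun t => T^[t] (G k (k + 1)) x) atTop (𝓝 0) := by
  rw [ENNReal.tendsto_nhds_zero]
  intro ε hε
  obtain ⟨δ, hδ, hδε⟩ : ∃ δ : ℝ, 0 < δ ∧ ENNReal.ofReal δ ≤ ε / 2 := by
    by_cases h : ε = ⊤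
    · exact ⟨1, one_pos, by rw [h, ENNReal.top_div_of_ne_top (by simp)]; exact le_top⟩
    · refine ⟨(ε / 2).toReal, ENNReal.toReal_pos (ENNReal.half_pos hε.ne').ne' (by finiteness), ?_⟩
      exact ENNReal.ofReal_toReal_le
  obtain ⟨M, hM⟩ := exists_nat_gt (max 1 (2 / δ))
  have hM1 : (1 : ℝ) < M := (le_max_left _ _).trans_lt hM
  have hM2 : 2 / δ < M := (le_max_right _ _).trans_lt hM
  obtain ⟨t, ht⟩ : ∃ t, v M t 1 ≤ δ := by
    have θ0 : 0 ≤ 1 - 1 / (2 * (M : ℝ) ^ 2) := by
      rw [sub_nonneg, div_le_one (by positivity)]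
      nlinarith
    have θ1 : 1 - 1 / (2 * (M : ℝ) ^ 2) < 1 := by
      have : 0 < 1 / (2 * (M : ℝ) ^ 2) := by positivity
      linarith
    have := (tendsto_pow_atTop_nhds_zero_of_lt_one θ0 θ1).mul_const (1 * (2 * (M : ℝ) - 1))
    rw [zero_mul] at this
    obtain ⟨t, ht⟩ := (this.eventually (gt_mem_nhds (half_pos hδ))).exists
    refine ⟨t, ?_⟩
    have : 1 / (M : ℝ) ≤ δ / 2 := by
      rw [div_lt_iff₀ hδ] at hM2
      rw [div_le_iff₀ (by linarith)]
      linarith
    unfold v
    push_cast
    linarith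
  have h1 : ∀ y, T^[t] (G k (k + 1)) y ≤
      ∑ p ∈ Finset.Icc (k - t) (k + 1 + t), σ p y + ENNReal.ofReal δ := by
    intro y
    by_cases h : ∀ p, k - t ≤ p → p ≤ k + 1 + t → s y p = false
    · refine le_trans ?_ le_add_self
      refine (walk M (by exact_mod_cast hM1.le) t k (k + 1) y (by omega)
        (by rw [add_sub_cancel_left]; exact_mod_cast hM1.le) h).trans ?_
      rw [add_sub_cancel_left]
      exact ENNReal.ofReal_le_ofReal ht
    · push Not at h
      obtain ⟨p, a, b, c⟩ := h
      refine le_trans ?_ le_self_add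
      refine le_trans ?_ (Finset.single_le_sum (f := fun p => σ p y) (fun _ _ => zero_le)
        (Finset.mem_Icc.mpr ⟨a, b⟩))
      refine ((T_mono (fun x => γ_le _ _ _) t y).trans (T_const 1 t y).le).trans ?_
      simp only [ne_eq, Bool.not_eq_false] at c
      simp [σ, c]
  have h2 := tendsto_finsetSum (Finset.Icc (k - t) (k + 1 + t)) fun p _ => σ_lim p x
  rw [Finset.sum_const_zero, ENNReal.tendsto_nhds_zero] at h2
  obtain ⟨N, hN⟩ := eventually_atTop.mp (h2 (ε / 2) (ENNReal.half_pos hε.ne'))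
  rw [eventually_atTop]
  refine ⟨N + t, fun n hn => ?_⟩
  obtain ⟨n, rfl⟩ : ∃ m, n = m + t := ⟨n - t, by omega⟩
  rw [Function.iterate_add_apply]
  refine (T_mono h1 n x).trans ?_
  rw [T_add (Finset.measurable_sum _ fun p _ => mσ p), T_sum _ mσ, T_const, ← ENNReal.add_halves ε]
  exact add_le_add (hN n (by omega)) hδε

end Pool.Agent.H.MP_621202_pr
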