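import Pool.Agent.H.MP_621202_pr.A

set_option autoImplicit false

namespace Pool.Agent.H.MP_621202_pr

open MeasureTheory Filter Topology ENNReal ProbabilityTheory

def N : Finset I := {e (-1), e 0, e 1}

noncomputable def f (u : N → A) : ProbabilityMeasure A :=
  ⟨coin.map fun b => ((loc (u ⟨e (-1), by simp [N]⟩) (u ⟨e 0, by simp [N]⟩) (u ⟨e 1, by simp [N]⟩)).1,
    (loc (u ⟨e (-1), by simp [N]⟩) (u ⟨e 0, by simp [N]⟩) (u ⟨e 1, by simp [N]⟩)).2, b),
    Measure.isProbabilityMeasure_map (measurable_of_countable _).aemeasurable⟩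

noncomputable def κ : Kernel X X := ⟨K, mK⟩

lemma κ_eq (x : X) :
    κ x = Measure.infinitePi (fun k : I => ((f (fun v : N => x (k + (v : I)))) : Measure A)) :=
  Measure.infinitePi_map_pi (fun _ : I => coin) (f := fun i b => ((O x i).1, (O x i).2, b))
    (fun _ => measurable_of_countable _)

def cyl (S : Finset I) (c : X) : Set X := {x | ∀ k ∈ S, x k = c k}

lemma mcyl (S : Finset I) (c : X) : MeasurableSet (cyl S c) := by
  have : cyl S c = Set.pi S fun i => {c i} := by ext; simp [cyl]
  rw [this]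
  exact MeasurableSet.pi S.countable_toSet fun _ _ => MeasurableSet.of_discrete

noncomputable def χ (S : Finset I) (c : X) : X → ℝ≥0∞ := (cyl S c).indicator 1

lemma mχ (S : Finset I) (c : X) : Measurable (χ S c) := measurable_one.indicator (mcyl S c)

lemma χ_le (S : Finset I) (c : X) (n : ℕ) (x : X) : T^[n] (χ S c) x ≤ 1 :=
  (T_mono (fun y => Set.indicator_le_self' (fun _ _ => zero_le) y) n x).trans (T_const 1 n x).le

lemma iter_cyl (S : Finset I) (c : X) (n : ℕ) (μ : Measure X) :
    ((fun ν : Measure X => ν.bind K)^[n] μ) (cyl S c) = ∫⁻ x, T^[n] (χ S c) x ∂μ := by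
  rw [← lint_iter (mχ S c), χ, lintegral_indicator_one (mcyl S c)]

def x0 : X := fun _ => (false, false, false)

noncomputable def β (S : Finset I) (y : X) : ℝ≥0∞ :=
  ∑ k ∈ S, (T (σ (k 0)) y + G (k 0) (k 0 + 1) y)

lemma β_dich (S : Finset I) (c : X) (y : X) : 1 ≤ β S y ∨ T (χ S c) y = T (χ S c) x0 := by
  by_cases h : ∀ k ∈ S, O y k = (false, false)
  · right
    apply lintegral_congr
    intro ω
    have : Z y ω ∈ cyl S c ↔ Z x0 ω ∈ cyl S c := by
      apply forall₂_congr
      intro k hk
      simp only [Z, h k hk]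
      rfl
    by_cases h' : Z x0 ω ∈ cyl S c
    · rw [χ, Set.indicator_of_mem h', Set.indicator_of_mem (this.mpr h')]
      rfl
    · rw [χ, Set.indicator_of_notMem h', Set.indicator_of_notMem (mt this.mp h')]
  · left
    push Not at h
    obtain ⟨k, hk, h⟩ := h
    have h0 := Finset.single_le_sum
      (f := fun k : I => T (σ (k 0)) y + G (k 0) (k 0 + 1) y) (fun _ _ => zero_le) hk
    rw [β]
    refine le_trans ?_ h0
    by_cases h1 : (O y k).1 = true
    · refine le_trans (le_of_eq ?_) le_self_add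
      simp [T, σ, s, Z, e_eta, h1]
    · refine le_trans (le_of_eq ?_) le_add_self
      rw [G, γ, if_pos]
      refine ⟨k 0, by simp, ?_⟩
      simp only [w, Z, e_eta]
      revert h h1
      generalize O y k = o
      revert o
      decide

lemma β_lim (S : Finset I) (x : X) : Tendsto (fun n => T^[n] (β S) x) atTop (𝓝 0) := by
  have m0 : ∀ p, Measurable (T (σ p)) := fun p => mT (mσ p) 1
  have h : ∀ n, T^[n] (β S) x =
      ∑ k ∈ S, (T^[n + 1] (σ (k 0)) x + T^[n] (G (k 0) (k 0 + 1)) x) := by
    intro n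
    refine (T_sum S (g := fun k y => T (σ (k 0)) y + G (k 0) (k 0 + 1) y)
      (fun k => (m0 _).add (mG _ _)) n x).trans ?_
    exact Finset.sum_congr rfl fun k _ => T_add (m0 _) _ _ _
  simp only [h]
  have := tendsto_finsetSum S fun k _ =>
    ((σ_lim (k 0) x).comp (tendsto_add_atTop_nat 1)).add (G_lim (k 0) x)
  simpa using this

lemma χ_lim (S : Finset I) (c : X) (x : X) :
    Tendsto (fun n => T^[n] (χ S c) x) atTop (𝓝 (T (χ S c) x0)) := by
  rw [← tendsto_add_atTop_iff_nat 1]
  have u : ∀ n, T^[n + 1] (χ S c) x ≤ T (χ S c) x0 + T^[n] (β S) x := by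
    intro n
    rw [Function.iterate_succ_apply, ← T_const (T (χ S c) x0) n x, ← T_add measurable_const]
    apply T_mono
    intro y
    rcases β_dich S c y with h | h
    · exact (χ_le S c 1 y).trans (h.trans le_add_self)
    · rw [h]; exact le_self_add
  have l : ∀ n, T (χ S c) x0 - T^[n] (β S) x ≤ T^[n + 1] (χ S c) x := by
    intro n
    have m : Measurable (T (χ S c)) := mT (mχ S c) 1
    rw [tsub_le_iff_right, Function.iterate_succ_apply, ← T_const (T (χ S c) x0) n x, ← T_add m]
    apply T_mono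
    intro y
    rcases β_dich S c y with h | h
    · exact (χ_le S c 1 x0).trans (h.trans le_add_self)
    · rw [h]; exact le_self_add
  refine tendsto_of_tendsto_of_tendsto_of_le_of_le ?_ ?_ l u
  · simpa using ENNReal.Tendsto.sub (tendsto_const_nhds (x := T (χ S c) x0)) (β_lim S x)
      (Or.inr (by simp))
  · simpa using (tendsto_const_nhds (x := T (χ S c) x0)).add (β_lim S x)

lemma ergodic (μ : Measure X) [IsProbabilityMeasure μ] (S : Finset I) (c : X) :
    Tendsto (fun n : ℕ => ((fun ν : Measure X => ν.bind K)^[n] μ) (cyl S c)) atTop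
      (𝓝 (K x0 (cyl S c))) := by
  have h : K x0 (cyl S c) = ∫⁻ _, T (χ S c) x0 ∂μ := by
    rw [lintegral_const, measure_univ, mul_one, T, ← lintegral_map (mχ S c) (mZ' x0), χ,
      lintegral_indicator_one (mcyl S c), K]
  simp only [iter_cyl, h]
  exact tendsto_lintegral_of_dominated_convergence (fun _ => 1) (fun n => mT (mχ S c) n)
    (fun n => Eventually.of_forall fun x => χ_le S c n x) (by simp)
    (Eventually.of_forall fun x => χ_lim S c x)

def c1 : X := fun _ => (true, false, false)

lemma alive (t : ℕ) : ∀ x : X, s x (-(t + 1)) = true →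
    (∀ p, -((t : ℤ) + 1) < p → s x p = false ∧ w x p = false) →
    T^[t + 1] (χ {e 0} c1) x = 2⁻¹ := by
  induction t with
  | zero =>
    intro x h1 h2
    have a1 : ∀ ω, χ {e 0} c1 (Z x ω) = (fun b => if b then 0 else 1) (ω (e 0)) := by
      intro ω
      have b1 : s (Z x ω) 0 = true := by
        rw [s_Z, (h2 0 (by simp)).2, (h2 (0 + 1) (by simp)).2]
        simpa using h1
      have b2 : w (Z x ω) 0 = false := by
        rw [w_Z, (h2 0 (by simp)).1, (h2 0 (by simp)).2, (h2 (0 + 1) (by simp)).2]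
        simp
      have b3 : Z x ω (e 0) = (true, false, ω (e 0)) := Prod.ext b1 (Prod.ext b2 rfl)
      cases h : ω (e 0) <;> simp [χ, cyl, Set.indicator, b3, h, c1]
    rw [T_succ]
    simp only [Function.iterate_zero, id, a1]
    rw [lint1 (e 0) (fun b => if b then 0 else 1)]
    simp
  | succ t ih =>
    intro x h1 h2
    rw [T_succ]
    have : ∀ ω, T^[t + 1] (χ {e 0} c1) (Z x ω) = 2⁻¹ := by
      intro ω
      push_cast at h1 h2
      apply ih
      · rw [s_Z, (h2 _ (by omega)).2, (h2 _ (by omega)).2,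
          show -((t : ℤ) + 1) - 1 = -(t + 1 + 1) by ring, h1]
        rfl
      · intro p hp
        rw [s_Z, w_Z, (h2 (p - 1) (by omega)).1, (h2 p (by omega)).1, (h2 p (by omega)).2,
          (h2 (p + 1) (by omega)).2]
        simp
    simp [this]

lemma val1 (t : ℕ) : ((fun ν : Measure X => ν.bind K)^[t + 1]
    (Measure.dirac fun i => (decide (i 0 = -(t + 1)), false, false))) (cyl {e 0} c1) = 2⁻¹ := by
  rw [iter_cyl, lintegral_dirac]
  apply alive
  · simp [s, e]
  · intro p hp
    simp [s, w, e]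
    omega

lemma val0 (t : ℕ) : ((fun ν : Measure X => ν.bind K)^[t] (Measure.dirac x0)) (cyl {e 0} c1) = 0 := by
  rw [iter_cyl, lintegral_dirac]
  refine le_antisymm ((T_mono (h := σ 0) ?_ t x0).trans (dead 0 t x0 rfl).le) zero_le
  intro y
  by_cases h : y ∈ cyl {e 0} c1
  · have := h (e 0) (by simp)
    simp [χ, h, σ, s, this, c1]
  · simp [χ, h]

end Pool.Agent.H.MP_621202_pr
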